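import Pool.Agent.helper31.RLS.Spec

/-!
# rls:DQ — `H < G`
-/

set_option autoImplicit false

namespace Pool.Agent.RLS

open Finset

/-- DQ -/
theorem DQ (h1 : DE_stmt) : DQ_stmt := by
  intro u G H hu hD
  obtain ⟨hlog, hG', hH'⟩ := h1 u G H hu hD
  obtain ⟨q, hq⟩ : ∃ q : ℝ → ℝ, ∀ s, q s = G s - H s := ⟨_, fun _ => rfl⟩
  have hqf : q = fun s => G s - H s := funext hq
  have cq : Continuous q := by
    rw [hqf]
    exact hD.cG.sub hD.cH
  have hlog2 : Real.log 2 < 1 := by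
    have := Real.log_two_lt_d9
    linarith
  have hq23' : ∀ s, 2 ≤ s → s ≤ 3 → q s = 1 - Real.log (s - 1) := by
    intro s h2 h3
    rw [hq, hD.g3 s h3, hlog s h2 (by linarith)]
  have hq23 : ∀ s, 2 ≤ s → s ≤ 3 → 0 < q s := by
    intro s h2 h3
    have e3 : Real.log (s - 1) ≤ Real.log 2 := Real.log_le_log (by linarith) (by linarith)
    rw [hq23' s h2 h3]
    linarith
  obtain ⟨Q, hQ⟩ : ∃ Q : ℝ → ℝ, ∀ s, Q s = ∫ t in (0 : ℝ)..s, q t := ⟨_, fun _ => rfl⟩
  have hQf : Q = fun s => ∫ t in (0 : ℝ)..s, q t := funext hQ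
  have hQ' : ∀ s, HasDerivAt Q (q s) s := by
    intro s
    rw [hQf]
    exact (cq.integral_hasStrictDerivAt 0 s).hasDerivAt
  have cQ : Continuous Q := continuous_iff_continuousAt.2 fun s => (hQ' s).continuousAt
  have hint : ∀ a b, IntervalIntegrable q MeasureTheory.volume a b := fun a b =>
    cq.intervalIntegrable a b
  have hQs : ∀ s, Q s - Q (s - 1) = ∫ t in (s - 1)..s, q t := by
    intro s
    rw [hQ, hQ, intervalIntegral.integral_interval_sub_left (hint _ _) (hint _ _)]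
  obtain ⟨Φ, hΦ⟩ : ∃ Φ : ℝ → ℝ, ∀ s, Φ s = (s - 1) * q s - (Q s - Q (s - 1)) :=
    ⟨_, fun _ => rfl⟩
  have hΦf : Φ = fun s => (s - 1) * q s - (Q s - Q (s - 1)) := funext hΦ
  have hΦc : Continuous Φ := by
    rw [hΦf]
    exact ((continuous_id.sub continuous_const).mul cq).sub
      (cQ.sub (cQ.comp (continuous_id.sub continuous_const)))
  have hΦ' : ∀ s, 3 < s → s < u → HasDerivAt Φ 0 s := by
    intro s hs3 hsu
    have d1 : HasDerivAt q (H (s - 1) / (s - 1) - G (s - 1) / (s - 1)) s := by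
      rw [hqf]
      exact (hG' s hs3 hsu).sub (hH' s (by linarith) hsu)
    have d2 : HasDerivAt (fun s : ℝ => s - 1) 1 s := (hasDerivAt_id s).sub_const 1
    have d3 : HasDerivAt (fun s : ℝ => Q (s - 1)) (q (s - 1) * 1) s :=
      HasDerivAt.comp s (hQ' (s - 1)) d2
    have d4 := (d2.mul d1).sub ((hQ' s).sub d3)
    rw [hΦf]
    refine d4.congr_deriv ?_
    have hne : s - 1 ≠ 0 := by linarith
    rw [hq (s - 1)]
    field_simp
    ring
  have hΦ3 : Φ 3 = 0 := by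
    rw [hΦ, hQs, hq23' 3 (by norm_num) le_rfl]
    have e1 : ∫ t in ((3 : ℝ) - 1)..3, q t = ∫ t in ((3 : ℝ) - 1)..3, (1 - Real.log (t - 1)) := by
      apply intervalIntegral.integral_congr
      intro t ht
      rw [Set.uIcc_of_le (by norm_num)] at ht
      exact hq23' t (by linarith [ht.1]) ht.2
    have e2 : ∫ t in ((3 : ℝ) - 1)..3, (1 - Real.log (t - 1)) =
        ∫ t in (1 : ℝ)..2, (1 - Real.log t) := by
      have := intervalIntegral.integral_comp_sub_right (a := (3 : ℝ) - 1) (b := 3)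
        (fun t => 1 - Real.log t) 1
      rw [this]
      norm_num
    rw [e1, e2, intervalIntegral.integral_sub (by simp) (intervalIntegral.intervalIntegrable_log'),
      integral_log]
    norm_num
    ring
  have hΦ0 : ∀ s, 3 ≤ s → s ≤ u → Φ s = 0 := by
    intro s hs3 hsu
    rcases eq_or_lt_of_le hs3 with h | h
    · rw [← h]
      exact hΦ3
    · obtain ⟨c, hc, hc'⟩ := exists_hasDerivAt_eq_slope Φ (fun _ => 0) h hΦc.continuousOn
        (fun x hx => hΦ' x hx.1 (lt_of_lt_of_le hx.2 hsu))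
      rw [hΦ3, sub_zero] at hc'
      have h5 : s - 3 ≠ 0 := by linarith
      have h6 : Φ s / (s - 3) = 0 := hc'.symm
      exact (div_eq_zero_iff.1 h6).resolve_right h5
  -- the least zero
  intro s hs2 hsu
  by_contra hcon
  push Not at hcon
  have hqs : q s ≤ 0 := by
    rw [hq]
    linarith
  have hs3 : 3 ≤ s := by
    by_contra h
    push Not at h
    linarith [hq23 s hs2 h.le]
  have hne : (Set.Icc 3 u ∩ q ⁻¹' Set.Iic 0).Nonempty := ⟨s, ⟨hs3, hsu⟩, hqs⟩
  have hcl : IsClosed (Set.Icc 3 u ∩ q ⁻¹' Set.Iic 0) :=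
    isClosed_Icc.inter (isClosed_Iic.preimage cq)
  have hbd : BddBelow (Set.Icc 3 u ∩ q ⁻¹' Set.Iic 0) := ⟨3, fun x hx => hx.1.1⟩
  obtain ⟨⟨h3, hsu0⟩, hq0⟩ := hcl.csInf_mem hne hbd
  set s₀ := sInf (Set.Icc 3 u ∩ q ⁻¹' Set.Iic 0) with hs₀
  have hpos : ∀ t, 2 ≤ t → t < s₀ → 0 < q t := by
    intro t ht2 ht0
    by_cases ht3 : t ≤ 3
    · exact hq23 t ht2 ht3
    · push Not at ht3
      by_contra h
      push Not at h
      have : s₀ ≤ t := csInf_le hbd ⟨⟨ht3.le, by linarith⟩, h⟩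
      linarith
  have hq0' : q s₀ ≤ 0 := hq0
  have hI : 0 < ∫ t in (s₀ - 1)..s₀, q t := by
    apply intervalIntegral.intervalIntegral_pos_of_pos_on (hint _ _) _ (by linarith)
    intro x hx
    exact hpos x (by linarith [hx.1]) hx.2
  have h7 := hΦ0 s₀ h3 hsu0
  rw [hΦ, hQs] at h7
  have h8 : (s₀ - 1) * q s₀ ≤ 0 := mul_nonpos_of_nonneg_of_nonpos (by linarith) hq0'
  linarith

end Pool.Agent.RLS
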